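import Pool.Agent.H96.MC.Iface
import Pool.Agent.H96.MC.Targets

/-!
Module APOS (MP_5da387_pr): the constant is positive.
-/

namespace Pool.Agent.H36.MC

open Pool.Agent.H96.MC

theorem apos (h1 : T_POSA) (h2 : T_ZNE) : T_APOS := by
  intro d q D hd
  obtain ⟨c, hc, hP⟩ := h1 d q D hd
  have hne : ({a | ∃ N s T, Adm D d N s T ∧ a = wrate D d N s T / ((N : ℝ) - d) ^ d} : Set ℝ).Nonempty :=
    ⟨_, d + 2, d + 2, d + 2, ⟨le_rfl, le_rfl, le_rfl, h2 d q D _ _ _⟩, rfl⟩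
  refine lt_of_lt_of_le hc (le_csInf hne ?_)
  rintro a ⟨N, s, T, hA, rfl⟩
  have hN : (d : ℝ) + 2 ≤ (N : ℝ) := by
    have := hA.1
    exact_mod_cast this
  have hpos : (0 : ℝ) < ((N : ℝ) - d) ^ d := pow_pos (by linarith) _
  rw [le_div_iff₀ hpos]
  exact hP N s T hA

end Pool.Agent.H36.MC
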